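import Pool.Agent.CBD.ZGS
import Pool.Agent.CBD.ZKD
import Pool.Agent.CBD.ZOE
import Pool.Agent.CBD.KCT
import Pool.Agent.CBD.ECD
import Pool.Agent.CBD.DPR
import Pool.Agent.CBD.FLC
import Pool.Agent.CBD.GZZ

/-!
# A one-ended CAT(0) group with two non-homeomorphic locally connected boundaries
-/

namespace Pool.Agent.Results.MP_39434d_al.TwoBoundaries

open Pool.CBD

/-- The two spaces of the example, as spaces with a geometric action of the same group. -/
noncomputable def space (P : Par) : GeomSpace (GG datK) where
  X := (ckD P).X
  metric := inferInstanceAs (MetricSpace (XX (ckD P).G))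
  action := inferInstanceAs (MulAction (GG (ckD P).G.toDat) (XX (ckD P).G))
  nonempty := ⟨bt (Ch.base (ckD P).G.toDat) (ckD P).ob⟩
  proper := properSpace_XX
  cat0 := (cat0_X (ckD P)).isCAT0
  geometric := geometric (ckD P).G

/-- There is a one-ended group acting geometrically on two proper CAT(0) spaces both of whose
visual boundaries are locally connected, but whose visual boundaries are not homeomorphic. -/
theorem result : ∃ (G : Type) (_ : Group G) (S T : GeomSpace G), OneEnded G ∧
    (∀ o : S.X, LocallyConnectedSpace (Bd S.X o)) ∧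
    (∀ o : T.X, LocallyConnectedSpace (Bd T.X o)) ∧
    ∀ (o : S.X) (o' : T.X), IsEmpty (Bd S.X o ≃ₜ Bd T.X o') := by
  refine ⟨GG datK, inferInstance, space par0, space par1, oneEnded, ?_, ?_, ?_⟩
  · exact fun o => lcs_all (D := ckD par0) o
  · exact fun o => lcs_all (D := ckD par1) o
  · intro o o'
    exact boundaries_differ (ckD par0) (ckD par1) rfl
      (show (0 : ℝ) < 3 / 5 by norm_num) o o'

end Pool.Agent.Results.MP_39434d_al.TwoBoundaries
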